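import Pool.Agent.ABC3.Stmts

/-!
# ABC3, row ATT: the main theorem in the language of `T(Z)`
-/

set_option autoImplicit false

namespace Pool.Agent.ABC3.H25

open Matrix Pool.Agent.ABC3

section basic

variable {K : Type} [Field K] {ι : Type} [Fintype ι] [DecidableEq ι]

/-- the vacuum -/
def vac (K : Type) [Field K] (ι : Type) [Fintype ι] [DecidableEq ι] : St ι → K :=
  Pi.single (fun _ => false) 1

theorem mulVec_vac (M : Matrix (St ι) (St ι) K) (s : St ι) :
    M.mulVec (vac K ι) s = M s (fun _ => false) := by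
  unfold vac
  rw [Matrix.mulVec_single_one]
  rfl

theorem vac_ne : vac K ι ≠ 0 := by
  intro h
  have := congrFun h (fun _ => false)
  simp [vac] at this

theorem sdeg_nonneg (s : St ι) : 0 ≤ sdeg s := by
  unfold sdeg
  exact Int.natCast_nonneg _

theorem sdeg_zero {s : St ι} (h : sdeg s = 0) : s = fun _ => false := by
  unfold sdeg at h
  have h1 : (Finset.univ.filter (fun c => s c = true)).card = 0 := by exact_mod_cast h
  rw [Finset.card_eq_zero, Finset.filter_eq_empty_iff] at h1
  funext c
  have := h1 (Finset.mem_univ c)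
  simpa using this

theorem sdeg_vac : sdeg (fun _ : ι => false) = 0 := by
  unfold sdeg
  simp

theorem homV_vac : HomV (sdeg : St ι → ℤ) 0 (vac K ι) := by
  intro s hs
  by_cases h : s = fun _ => false
  · rw [h, sdeg_vac]
  · exact absurd (by unfold vac; rw [Pi.single_eq_of_ne h]) hs

theorem homV_mulVec {B : Type} [Fintype B] {deg : B → ℤ} {k d : ℤ} {M : Matrix B B K} {v : B → K}
    (hM : HasDeg deg k M) (hv : HomV deg d v) : HomV deg (d + k) (M.mulVec v) := by
  intro s hs
  rw [Matrix.mulVec, dotProduct] at hs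
  obtain ⟨s', _, h⟩ := Finset.exists_ne_zero_of_sum_ne_zero hs
  have h1 : M s s' ≠ 0 := left_ne_zero_of_mul h
  have h2 : v s' ≠ 0 := right_ne_zero_of_mul h
  rw [hM s s' h1, hv s' h2]

theorem homV_neg {d : ℤ} (hd : d < 0) {v : St ι → K} (hv : HomV (sdeg : St ι → ℤ) d v) :
    v = 0 := by
  funext s
  by_contra h
  have := hv s h
  have := sdeg_nonneg s
  omega

theorem homV_zero {v : St ι → K} (hv : HomV (sdeg : St ι → ℤ) 0 v) :
    v = v (fun _ => false) • vac K ι := by
  funext s
  by_cases h : s = fun _ => false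
  · subst h
    simp [vac]
  · have h1 : v s = 0 := by
      by_contra h2
      exact h (sdeg_zero (hv s h2))
    rw [h1, Pi.smul_apply]
    unfold vac
    rw [Pi.single_eq_of_ne h, smul_zero]

end basic

theorem hasDeg_act {K Q B : Type} [Field K] [AddCommGroup Q] [Module K Q] [Fintype B]
    [DecidableEq B] (S : Sys K Q B) (q : Q) : HasDeg S.deg 1 (S.act q) :=
  fun s s' h => S.hdeg q s s' h

theorem mu_zero' {K : Type} [Field K] {ι : Type} [Fintype ι] [DecidableEq ι] {w : ι → K}
    (h : ∀ c, w c = 0) : mu w = 0 := by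
  have : w = 0 := funext h
  rw [this, map_zero]

theorem kr_zero_left {K : Type} [Field K] {ι ι₁ ι₂ : Type} (σ : ι₁ ⊕ ι₂ ≃ ι)
    (C : Matrix (St ι₂) (St ι₂) K) : kr σ (0 : Matrix (St ι₁) (St ι₁) K) C = 0 := by
  ext s s'
  simp [kr]

/-- the product of operators of elements of `P` is `1 ⊗` the product on the vectors not vanishing
on `P` -/
theorem prod_kr (krs : KRSStmt) {K Q : Type} [Field K] [CharP K 3] [AddCommGroup Q] [Module K Q]
    {ι ι₁ ι₂ : Type} [Fintype ι] [DecidableEq ι] [Fintype ι₁] [DecidableEq ι₁] [Fintype ι₂]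
    [DecidableEq ι₂] (σ : ι₁ ⊕ ι₂ ≃ ι) (ev : ι → (Q →ₗ[K] K)) (P : Submodule K Q)
    (h1 : ∀ i : ι₁, ∀ p ∈ P, ev (σ (Sum.inl i)) p = 0) (l : List P) :
    ((l.map (fun p : P => (TSys ev).act (p : Q))).prod) =
      kr σ 1 ((l.map (fun p : P => (TSys (fun i : ι₂ => (ev (σ (Sum.inr i))).comp P.subtype)).act
        p)).prod) := by
  obtain ⟨k1, k2, -, -, k5, -⟩ := krs K ι ι₁ ι₂ σ
  induction l with
  | nil => rw [List.map_nil, List.map_nil, List.prod_nil, List.prod_nil, k2]
  | cons p l ih =>
    rw [List.map_cons, List.map_cons, List.prod_cons, List.prod_cons, ih]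
    have h2 : (TSys ev).act (p : Q) =
        kr σ 1 ((TSys (fun i : ι₂ => (ev (σ (Sum.inr i))).comp P.subtype)).act p) := by
      rw [TSys_act, TSys_act, k5, mu_zero' (fun i => h1 i p p.2), kr_zero_left, zero_add]
      rfl
    rw [h2, k1, one_mul]

theorem kr_vac {K : Type} [Field K] {ι ι₁ ι₂ : Type} [Fintype ι] [DecidableEq ι] [Fintype ι₁]
    [DecidableEq ι₁] [Fintype ι₂] [DecidableEq ι₂] (σ : ι₁ ⊕ ι₂ ≃ ι)
    {M : Matrix (St ι₂) (St ι₂) K} (h : M.mulVec (vac K ι₂) ≠ 0) :
    (kr σ 1 M).mulVec (vac K ι) ≠ 0 := by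
  intro h1
  apply h
  funext t
  have h2 := congrFun h1 (fun c => Sum.elim (fun _ => false) t (σ.symm c))
  rw [mulVec_vac] at h2 ⊢
  have h5 : (1 : Matrix (St ι₁) (St ι₁) K)
      (fun i : ι₁ => Sum.elim (fun _ => false) t (σ.symm (σ (Sum.inl i)))) (fun _ => false) *
      M (fun i : ι₂ => Sum.elim (fun _ : ι₁ => false) t (σ.symm (σ (Sum.inr i))))
        (fun _ => false) = 0 := h2
  have h3 : (fun i : ι₁ => Sum.elim (fun _ => false) t (σ.symm (σ (Sum.inl i)))) =
      fun _ : ι₁ => false := by
    funext i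
    rw [Equiv.symm_apply_apply, Sum.elim_inl]
  have h4 : (fun i : ι₂ => Sum.elim (fun _ : ι₁ => false) t (σ.symm (σ (Sum.inr i)))) = t := by
    funext i
    rw [Equiv.symm_apply_apply, Sum.elim_inr]
  rw [h3, h4, Matrix.one_apply_eq, one_mul] at h5
  exact h5

theorem att_aux (ind : INDStmt) (ept : EPTStmt) (chi : CHIStmt) (tr1 : TR1Stmt) (cpx : CPXStmt)
    (rpj : RPJStmt) (krs : KRSStmt) (K : Type) [Field K] [CharP K 3] (n : ℕ) :
    ∀ (Q : Type) [AddCommGroup Q] [Module K Q]
    [FiniteDimensional K Q] (ι : Type) [Fintype ι] [DecidableEq ι] (ev : ι → (Q →ₗ[K] K)),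
    (∀ c, ev c ≠ 0) →
    (∀ P : Submodule K Q, P ≠ ⊥ →
      4 * Module.finrank K P ≤ Nat.card {c // ¬ P ≤ LinearMap.ker (ev c)} + 2) →
    Module.finrank K Q = n →
    ∃ l : List Q, l.length = 2 * n ∧
      ((l.map (fun p => (TSys ev).act p)).prod).mulVec (vac K ι) ≠ 0 := by
  induction n with
  | zero =>
    intro Q _ _ _ ι _ _ ev _ _ _
    refine ⟨[], rfl, ?_⟩
    rw [List.map_nil, List.prod_nil, Matrix.one_mulVec]
    exact vac_ne
  | succ n ih =>
    intro Q _ _ _ ι _ _ ev hev hP hn
    classical
    have hS : Chi (TSys ev) := chi K Q (St ι) (TSys ev) ι ev (ept K Q ι ev) hev (tr1 K ι)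
    obtain ⟨e, he⟩ := cpx K Q (St ι) (TSys ev) hS
    obtain ⟨he1, he2, he3, he4, he5⟩ := id he
    have hgood : Good ev := ind K (n + 2) Q ι ev hev (by omega) (by omega)
    have hlow := (hgood e he).1
    have htop : (⊤ : Submodule K Q) ≠ ⊥ := by
      intro h
      have h1 := finrank_top K Q
      rw [h, finrank_bot] at h1
      omega
    have hthr : 0 < thr (Fintype.card ι) (Module.finrank K Q) := by
      have h1 := hP ⊤ htop
      rw [finrank_top] at h1
      have h2 : Nat.card {c // ¬ (⊤ : Submodule K Q) ≤ LinearMap.ker (ev c)} ≤ Fintype.card ι := by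
        rw [Nat.card_eq_fintype_card]
        exact Fintype.card_subtype_le _
      unfold thr
      omega
    -- the vacuum is killed by the cap
    have hev0 : e.mulVec (vac K ι) = 0 := by
      refine hlow 0 (by omega) _ ?_ ?_
      · have h1 := homV_mulVec he2 (homV_vac (K := K) (ι := ι))
        simpa using h1
      · rw [Matrix.mulVec_mulVec, he1]
    obtain ⟨g, hg, hsum⟩ := rpj K Q (St ι) (TSys ev) ι ev (ept K Q ι ev) hev hS e he
    have hq : ∀ c, ∃ q : Q, ev c q = 1 := by
      intro c
      have h1 : ∃ x, ev c x ≠ 0 := by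
        by_contra h
        push Not at h
        exact hev c (LinearMap.ext h)
      obtain ⟨x, hx⟩ := h1
      exact ⟨(ev c x)⁻¹ • x, by rw [map_smul, smul_eq_mul, inv_mul_cancel₀ hx]⟩
    choose q hq using hq
    have h1 := hsum q hq
    have hvac : HomV (TSys ev).deg 0 (vac K ι) := homV_vac
    have h2 : ∀ c, (Tr (TSys ev) (q c) (g c)).mulVec (vac K ι) =
        (g c * (TSys ev).act (q c) * (TSys ev).act (q c)).mulVec (vac K ι) := by
      intro c
      have h3 : (g c).mulVec (vac K ι) = 0 :=
        homV_neg (by norm_num) (homV_mulVec (hg c).1 hvac)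
      have h4 : (g c).mulVec (((TSys ev).act (q c)).mulVec (vac K ι)) = 0 :=
        homV_neg (by norm_num) (homV_mulVec (hg c).1 (homV_mulVec (hasDeg_act _ (q c)) hvac))
      unfold Tr
      rw [Matrix.add_mulVec, Matrix.add_mulVec, ← Matrix.mulVec_mulVec, h3, Matrix.mulVec_zero,
        zero_add, Matrix.mul_assoc, ← Matrix.mulVec_mulVec, ← Matrix.mulVec_mulVec, h4,
        Matrix.mulVec_zero, zero_add]
    have h3 : vac K ι = ∑ c, (g c * (TSys ev).act (q c) * (TSys ev).act (q c)).mulVec
        (vac K ι) := by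
      have h4 : (1 - e).mulVec (vac K ι) = vac K ι := by
        rw [Matrix.sub_mulVec, Matrix.one_mulVec, hev0, sub_zero]
      rw [h1, Matrix.sum_mulVec] at h4
      exact h4.symm.trans (Finset.sum_congr rfl fun c _ => h2 c)
    obtain ⟨c, hc⟩ : ∃ c, (g c * (TSys ev).act (q c) * (TSys ev).act (q c)).mulVec
        (vac K ι) ≠ 0 := by
      by_contra h
      push Not at h
      rw [Finset.sum_eq_zero fun c _ => h c] at h3
      exact vac_ne h3
    have h5 : HomV sdeg 0 ((g c * (TSys ev).act (q c) * (TSys ev).act (q c)).mulVec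
        (vac K ι)) := by
      rw [← Matrix.mulVec_mulVec, ← Matrix.mulVec_mulVec]
      have h6 := homV_mulVec (hg c).1 (homV_mulVec (hasDeg_act _ (q c))
        (homV_mulVec (hasDeg_act _ (q c)) hvac))
      have e0 : (0:ℤ) + 1 + 1 + (-2) = 0 := by norm_num
      rw [e0] at h6
      exact h6
    have h6 := homV_zero h5
    set μ : K := (g c * (TSys ev).act (q c) * (TSys ev).act (q c)).mulVec (vac K ι)
      (fun _ => false) with hμ
    have hμ0 : μ ≠ 0 := by
      intro h
      rw [h, zero_smul] at h6
      exact hc h6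
    -- the induction hypothesis
    set P : Submodule K Q := LinearMap.ker (ev c) with hPdef
    have hPn : Module.finrank K P = n := by
      have h7 := LinearMap.finrank_range_add_finrank_ker (ev c)
      have h8 : Module.finrank K (LinearMap.range (ev c)) = 1 := by
        rw [LinearMap.range_eq_top.2, finrank_top, Module.finrank_self]
        intro x
        exact ⟨x • q c, by rw [map_smul, hq c, smul_eq_mul, mul_one]⟩
      rw [h8, hn] at h7
      rw [hPdef]
      omega
    obtain ⟨l, hl, hl2⟩ := ih P {c' // ¬ P ≤ LinearMap.ker (ev c')}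
      (fun i => (ev i.1).comp P.subtype) (by
        intro i h
        apply i.2
        intro x hx
        have := LinearMap.congr_fun h ⟨x, hx⟩
        simpa using this) (by
        intro P' hP'
        have h7 : P'.map P.subtype ≠ ⊥ := by
          intro h
          exact hP' (Submodule.map_injective_of_injective P.injective_subtype
            (h.trans (Submodule.map_bot _).symm))
        have h8 := hP _ h7
        have h9 : Module.finrank K (P'.map P.subtype) = Module.finrank K P' :=
          (LinearEquiv.finrank_eq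
            (Submodule.equivMapOfInjective P.subtype P.injective_subtype P')).symm
        rw [h9] at h8
        refine h8.trans (Nat.add_le_add_right ?_ 2)
        refine Nat.card_le_card_of_injective (fun i => ⟨⟨i.1, ?_⟩, ?_⟩) ?_
        · intro h
          exact i.2 ((Submodule.map_subtype_le P P').trans h)
        · intro h
          apply i.2
          rw [Submodule.map_le_iff_le_comap]
          exact h
        · intro a b h
          exact Subtype.ext (congrArg (fun z => z.1.1) h)) hPn
    have hp := prod_kr krs (Equiv.sumCompl (fun c' => P ≤ LinearMap.ker (ev c'))) ev P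
      (fun i p hp => i.2 hp) l
    have hp2 := kr_vac (ι₁ := {c' // P ≤ LinearMap.ker (ev c')})
      (Equiv.sumCompl (fun c' => P ≤ LinearMap.ker (ev c'))) hl2
    have hp3 : ((l.map (fun p : P => (TSys ev).act (p : Q))).prod).mulVec (vac K ι) ≠ 0 := by
      rw [hp]
      exact hp2
    have hcom : ((l.map (fun p : P => (TSys ev).act (p : Q))).prod) * g c =
        g c * ((l.map (fun p : P => (TSys ev).act (p : Q))).prod) := by
      refine Commute.list_prod_left _ _ ?_
      intro x hx
      rw [List.mem_map] at hx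
      obtain ⟨p, _, rfl⟩ := hx
      exact (hg c).2 p p.2
    refine ⟨l.map (fun p : P => (p : Q)) ++ [q c, q c], ?_, ?_⟩
    · rw [List.length_append, List.length_map, hl]
      simp only [List.length_cons, List.length_nil]
      omega
    · have h10 : (((l.map (fun p : P => (p : Q)) ++ [q c, q c]).map
          (fun p => (TSys ev).act p)).prod) =
          (l.map (fun p : P => (TSys ev).act (p : Q))).prod *
            ((TSys ev).act (q c) * (TSys ev).act (q c)) := by
        rw [List.map_append, List.prod_append, List.map_map]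
        simp only [List.map_cons, List.map_nil, List.prod_cons, List.prod_nil, mul_one]
        rfl
      rw [h10]
      intro h11
      have h12 := congrArg (fun v => (g c).mulVec v) h11
      simp only [Matrix.mulVec_zero] at h12
      rw [Matrix.mulVec_mulVec, ← mul_assoc, ← hcom, mul_assoc, ← mul_assoc (g c),
        ← Matrix.mulVec_mulVec, h6, Matrix.mulVec_smul] at h12
      rcases smul_eq_zero.1 h12 with h13 | h13
      · exact hμ0 h13
      · exact hp3 h13

theorem att (ind : INDStmt) (ept : EPTStmt) (chi : CHIStmt) (tr1 : TR1Stmt) (cpx : CPXStmt)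
    (rpj : RPJStmt) (krs : KRSStmt) : ATTStmt := by
  intro K Q _ _ _ _ _ ι _ _ ev hev hP
  exact att_aux ind ept chi tr1 cpx rpj krs K _ Q ι ev hev hP rfl

end Pool.Agent.ABC3.H25
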