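import Pool.Agent.ABC3.Stmts
import Pool.Agent.Helper17_ABCP.CPX

/-!
# ABC3, row CPX: existence of the cap, from the abstract form of helper17
-/

set_option autoImplicit false

namespace Pool.Agent.ABC3.H25

open Matrix Pool.Agent.ABC3

section sys

variable {K Q B : Type} [Field K] [AddCommGroup Q] [Module K Q] [Fintype B] [DecidableEq B]

/-- the algebra of the endomorphisms of degree `0` -/
def endA3 (S : Sys K Q B) : Subalgebra K (Matrix B B K) where
  carrier := {M | HasDeg S.deg 0 M ∧ Com S ⊤ M}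
  mul_mem' := by
    rintro M N ⟨hM, hM'⟩ ⟨hN, hN'⟩
    refine ⟨Pool.Agent.ABCP.H17.hasDeg_mul hM hN, fun x hx => ?_⟩
    rw [← mul_assoc, hM' x hx, mul_assoc, hN' x hx, mul_assoc]
  add_mem' := by
    rintro M N ⟨hM, hM'⟩ ⟨hN, hN'⟩
    refine ⟨fun s s' h => ?_, fun x hx => by rw [mul_add, add_mul, hM' x hx, hN' x hx]⟩
    by_cases h1 : M s s' = 0
    · exact hN s s' (fun h2 => h (by rw [Matrix.add_apply, h1, h2, add_zero]))
    · exact hM s s' h1
  algebraMap_mem' := by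
    intro r
    refine ⟨fun s s' h => ?_, fun x _ => (Algebra.commutes r (S.act x)).symm⟩
    rw [Matrix.algebraMap_matrix_apply] at h
    by_cases h1 : s = s'
    · rw [h1, add_zero]
    · rw [if_neg h1] at h
      exact absurd rfl h

theorem mem_endA3 (S : Sys K Q B) (M : Matrix B B K) :
    M ∈ endA3 S ↔ HasDeg S.deg 0 M ∧ Com S ⊤ M := Iff.rfl

end sys

/-- CPX. -/
theorem cpx : CPXStmt := by
  intro K Q B _ _ _ _ _ S hchi
  obtain ⟨ht, hm⟩ := hchi
  have hmul : ∀ f f' : Matrix B B K, f ∈ endA3 S → f' ∈ endA3 S →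
      Matrix.trace (f * f') * Matrix.trace (1 : Matrix B B K) =
        Matrix.trace f * Matrix.trace f' := fun f f' hf hf' => hm f f' hf.1 hf.2 hf'.1 hf'.2
  obtain ⟨e, he, heA, heI, hmin⟩ := Pool.Agent.ABCP.H17.cap_abs (endA3 S)
    (fun f => f ∈ endA3 S ∧ Matrix.trace f = 0) ⟨(endA3 S).zero_mem, Matrix.trace_zero _ _⟩
    (fun f g hf hg => ⟨(endA3 S).add_mem hf.1 hg.1, by
      rw [Matrix.trace_add, hf.2, hg.2, add_zero]⟩)
    (fun f h hf hh => ⟨(endA3 S).mul_mem hh hf.1, by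
      have h1 := hmul h f hh hf.1
      rw [hf.2, mul_zero] at h1
      exact (mul_eq_zero.1 h1).resolve_right ht⟩)
    (fun f h hf hh => ⟨(endA3 S).mul_mem hf.1 hh, by
      have h1 := hmul f h hf.1 hh
      rw [hf.2, zero_mul] at h1
      exact (mul_eq_zero.1 h1).resolve_right ht⟩)
  refine ⟨e, he, heA.1, heA.2, ?_, ?_⟩
  · have h1 := heI.2
    rw [Matrix.trace_sub] at h1
    rw [← sub_eq_zero.1 h1]
    exact ht
  · intro f hf hf' hft
    have hfA : f ∈ endA3 S := ⟨hf, hf'⟩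
    obtain ⟨c, hc⟩ : ∃ c, c = Matrix.trace (1 : Matrix B B K) / Matrix.trace f := ⟨_, rfl⟩
    have h1 : c • f ∈ endA3 S := (endA3 S).smul_mem hfA c
    have h2 : Matrix.trace (1 - c • f) = 0 := by
      rw [Matrix.trace_sub, Matrix.trace_smul, smul_eq_mul, hc, div_mul_cancel₀ _ hft, sub_self]
    obtain ⟨α, β, hα, hβ, h3⟩ := hmin (c • f)
      h1 ⟨(endA3 S).sub_mem (endA3 S).one_mem h1, h2⟩
    refine ⟨c • α, β, (endA3 S).smul_mem hα c, hβ, ?_⟩
    rw [← h3, smul_mul_assoc, smul_mul_assoc, mul_smul_comm, smul_mul_assoc]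

end Pool.Agent.ABC3.H25
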