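import Pool.Agent.ABC3.Stmts

/-!
# ABC3, row TR1: the trace of `1` on `T(Z)` is `2^N ≠ 0`
-/

set_option autoImplicit false

namespace Pool.Agent.ABC3.H25

open Pool.Agent.ABC3

theorem tr1 : TR1Stmt := by
  intro K _ _ ι _ _
  rw [Matrix.trace_one, Fintype.card_fun, Fintype.card_bool, Nat.cast_pow]
  refine pow_ne_zero _ ?_
  intro h
  rw [CharP.cast_eq_zero_iff K 3] at h
  omega

end Pool.Agent.ABC3.H25
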